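import Mathlib
import Pool.Agent.Helper28.MT.Goals3

/-!
# Project MT3 (MP_bb782b_co), packet POTB3: bounds from the potential
-/

set_option autoImplicit false

namespace Pool.Agent.Helper48.MT3

open Finset
open Pool.Agent.Helper28.MT3

/-- reindexing -/
theorem sum_icc (l s : ℕ) (hls : l ≤ s) (F : ℕ → ℝ) :
    ∑ m ∈ Icc l s, F (s - m) = ∑ i ∈ range (s - l + 1), F i := by
  refine Finset.sum_nbij' (fun m => s - m) (fun i => s - i) ?_ ?_ ?_ ?_ ?_
  · intro m hm
    rw [mem_Icc] at hm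
    rw [mem_range]
    omega
  · intro i hi
    rw [mem_range] at hi
    rw [mem_Icc]
    omega
  · intro m hm
    rw [mem_Icc] at hm
    omega
  · intro i hi
    rw [mem_range] at hi
    omega
  · intro m _
    rfl

theorem geom_half (n : ℕ) : ∑ i ∈ range n, ((1 : ℝ) / 2) ^ i ≤ 2 := by
  have h := geom_sum_eq (show (1 : ℝ) / 2 ≠ 1 by norm_num) n
  rw [h]
  have h2 : (0 : ℝ) < (1 / 2) ^ n := by positivity
  rw [div_le_iff_of_neg (by norm_num)]
  linarith

theorem geom_two (n : ℕ) : ∑ i ∈ range n, (2 : ℝ) ^ i ≤ 2 ^ n := by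
  have h := geom_sum_eq (show (2 : ℝ) ≠ 1 by norm_num) n
  rw [h]
  norm_num

theorem dr_nonneg (k s l p i : ℕ) : 0 ≤ dr k s l p i := by
  unfold dr
  refine Finset.sum_nonneg fun m _ => ?_
  split_ifs
  · positivity
  · exact le_refl _

theorem ds_nonneg (k s l p j : ℕ) : 0 ≤ ds k s l p j :=
  Finset.sum_nonneg fun i _ => dr_nonneg k s l p i

theorem card_le (j m c : ℕ) : ((range j).filter (fun i => c = i / 2 ^ m + 2)).card ≤ 2 ^ m := by
  have h1 : (range j).filter (fun i => c = i / 2 ^ m + 2) ⊆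
      Ico ((c - 2) * 2 ^ m) ((c - 2) * 2 ^ m + 2 ^ m) := by
    intro i hi
    rw [mem_filter] at hi
    rw [mem_Ico]
    have h2 : i / 2 ^ m = c - 2 := (Nat.sub_eq_of_eq_add hi.2).symm
    have hpos : 0 < 2 ^ m := by positivity
    rw [Nat.div_eq_iff hpos] at h2
    constructor
    · exact h2.1
    · have h4 := h2.2
      have h5 : 0 < 2 ^ m := hpos
      generalize 2 ^ m = z at h4 h5 ⊢
      generalize (c - 2) * z = w at h4 ⊢
      omega
  have h3 := Finset.card_le_card h1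
  rw [Nat.card_Ico, Nat.add_sub_cancel_left] at h3
  exact h3

/-- the rates are small -/
theorem ds_le (k s l p j : ℕ) (hls : l ≤ s) (hk : 2 ^ 70 * 2 ^ s ≤ k) :
    ds k s l p j ≤ ((s - l + 1 : ℕ) : ℝ) / 2 ^ 20 := by
  have hkR : (2 : ℝ) ^ 70 * 2 ^ s ≤ k := by exact_mod_cast hk
  have hk0 : (0 : ℝ) < k := lt_of_lt_of_le (by positivity) hkR
  have h1 : ds k s l p j = ∑ m ∈ Icc l s, ∑ i ∈ range j,
      (if p / 2 ^ (m - l) = i / 2 ^ m + 2 then
        2 ^ 49 * 2 ^ (s - m) * ((s - m + 1 : ℕ) : ℝ) / k * (2 ^ l / 2 ^ m) else 0) := by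
    unfold ds dr
    rw [Finset.sum_comm]
  have h2 : ∀ m ∈ Icc l s, ∑ i ∈ range j,
      (if p / 2 ^ (m - l) = i / 2 ^ m + 2 then
        2 ^ 49 * 2 ^ (s - m) * ((s - m + 1 : ℕ) : ℝ) / k * (2 ^ l / 2 ^ m) else 0) ≤
      2 ^ 49 * ((s - l + 1 : ℕ) : ℝ) * 2 ^ l / k * 2 ^ (s - m) := by
    intro m hm
    rw [mem_Icc] at hm
    rw [← Finset.sum_filter, Finset.sum_const, nsmul_eq_mul]
    have h3 : (((range j).filter (fun i => p / 2 ^ (m - l) = i / 2 ^ m + 2)).card : ℝ) ≤
        2 ^ m := by exact_mod_cast card_le j m (p / 2 ^ (m - l))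
    have h4 : ((s - m + 1 : ℕ) : ℝ) ≤ ((s - l + 1 : ℕ) : ℝ) := by
      exact_mod_cast (show s - m + 1 ≤ s - l + 1 by omega)
    calc (((range j).filter (fun i => p / 2 ^ (m - l) = i / 2 ^ m + 2)).card : ℝ) *
          (2 ^ 49 * 2 ^ (s - m) * ((s - m + 1 : ℕ) : ℝ) / k * (2 ^ l / 2 ^ m))
        ≤ 2 ^ m * (2 ^ 49 * 2 ^ (s - m) * ((s - l + 1 : ℕ) : ℝ) / k * (2 ^ l / 2 ^ m)) := by
          gcongr
      _ = 2 ^ 49 * ((s - l + 1 : ℕ) : ℝ) * 2 ^ l / k * 2 ^ (s - m) := by
          field_simp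
  rw [h1]
  refine (Finset.sum_le_sum h2).trans ?_
  rw [← Finset.mul_sum, sum_icc l s hls (fun i => (2 : ℝ) ^ i)]
  have h5 := geom_two (s - l + 1)
  calc 2 ^ 49 * ((s - l + 1 : ℕ) : ℝ) * 2 ^ l / k * ∑ i ∈ range (s - l + 1), (2 : ℝ) ^ i
      ≤ 2 ^ 49 * ((s - l + 1 : ℕ) : ℝ) * 2 ^ l / k * 2 ^ (s - l + 1) := by
        gcongr
    _ = 2 ^ 50 * 2 ^ s * ((s - l + 1 : ℕ) : ℝ) / k := by
        have h6 : (2 : ℝ) ^ l * 2 ^ (s - l + 1) = 2 * 2 ^ s := by
          rw [← pow_add, show l + (s - l + 1) = s + 1 by omega, pow_succ]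
          ring
        calc 2 ^ 49 * ((s - l + 1 : ℕ) : ℝ) * 2 ^ l / k * 2 ^ (s - l + 1)
            = 2 ^ 49 * ((s - l + 1 : ℕ) : ℝ) * (2 ^ l * 2 ^ (s - l + 1)) / k := by ring
          _ = 2 ^ 50 * 2 ^ s * ((s - l + 1 : ℕ) : ℝ) / k := by
            rw [h6]
            ring
    _ ≤ ((s - l + 1 : ℕ) : ℝ) / 2 ^ 20 := by
        rw [div_le_div_iff₀ hk0 (by positivity)]
        calc 2 ^ 50 * 2 ^ s * ((s - l + 1 : ℕ) : ℝ) * 2 ^ 20
            = ((s - l + 1 : ℕ) : ℝ) * (2 ^ 70 * 2 ^ s) := by ring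
          _ ≤ ((s - l + 1 : ℕ) : ℝ) * k := mul_le_mul_of_nonneg_left hkR (by positivity)

theorem mt3_potb3 : G_POTB3 := by
  intro k s u ut j hs hk hj
  have hkR : (2 : ℝ) ^ 70 * 2 ^ s ≤ k := by exact_mod_cast hk
  have hk0 : (0 : ℝ) < k := lt_of_lt_of_le (by positivity) hkR
  have hjR : (j : ℝ) ≤ 2 ^ s := by exact_mod_cast hj
  constructor
  · -- start
    unfold pot3
    have h1 : ∀ l ∈ Icc 1 s, ∑ p ∈ range (2 ^ (s + 2 - l)),
        Real.exp ((us u l p 0 : ℝ) / k - ds k s l p 0) / 4 ^ (s - l) =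
        4 * ((1 : ℝ) / 2) ^ (s - l) := by
      intro l hl
      rw [mem_Icc] at hl
      have h2 : ∀ p ∈ range (2 ^ (s + 2 - l)),
          Real.exp ((us u l p 0 : ℝ) / k - ds k s l p 0) / 4 ^ (s - l) =
          1 / 4 ^ (s - l) := by
        intro p _
        have h3 : us u l p 0 = 0 := by simp [us]
        have h4 : ds k s l p 0 = 0 := by simp [ds]
        rw [h3, h4]
        simp
      rw [Finset.sum_congr rfl h2, Finset.sum_const, card_range, nsmul_eq_mul]
      have h5 : s + 2 - l = (s - l) + 2 := by omega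
      rw [h5]
      push_cast
      have h6 : (4 : ℝ) ^ (s - l) = 2 ^ (s - l) * 2 ^ (s - l) := by
        rw [← mul_pow]
        norm_num
      rw [h6, pow_add, one_div, one_div, inv_pow]
      field_simp
      norm_num
    rw [Finset.sum_congr rfl h1, ← Finset.mul_sum, sum_icc 1 s hs (fun i => ((1 : ℝ) / 2) ^ i)]
    have h7 := geom_half (s - 1 + 1)
    simp only [range_zero, sum_empty, Nat.cast_zero, mul_zero, sub_zero]
    linarith
  intro hpot
  -- the exponential sum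
  set Sx : ℝ := ∑ l ∈ Icc 1 s, ∑ p ∈ range (2 ^ (s + 2 - l)),
      Real.exp ((us u l p j : ℝ) / k - ds k s l p j) / 4 ^ (s - l) with hSx
  have hSx0 : 0 ≤ Sx := Finset.sum_nonneg fun l _ => Finset.sum_nonneg fun p _ => by positivity
  set A : ℝ := ∑ i ∈ range j, (ut i : ℝ) with hA
  have hA0 : 0 ≤ A := Finset.sum_nonneg fun i _ => by positivity
  have hpot' : Sx + 128 / k * (A - 2 ^ 66 * j) ≤ 8 := hpot
  have hjk : (2 : ℝ) ^ 66 * j ≤ k / 16 := by
    have h1 : (2 : ℝ) ^ 66 * j ≤ 2 ^ 66 * 2 ^ s := by gcongr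
    have h2 : (2 : ℝ) ^ 66 * 2 ^ s = (2 ^ 70 * 2 ^ s) / 16 := by ring
    linarith
  have hmul : ∀ z : ℝ, 128 / (k : ℝ) * z = 128 * z / k := fun z => by ring
  have hSx16 : Sx ≤ 16 := by
    have h1 : -8 ≤ 128 / (k : ℝ) * (A - 2 ^ 66 * j) := by
      rw [hmul, le_div_iff₀ hk0]
      linarith
    linarith
  have hterm : ∀ l, 1 ≤ l → l ≤ s → ∀ p < 2 ^ (s + 2 - l),
      Real.exp ((us u l p j : ℝ) / k - ds k s l p j) / 4 ^ (s - l) ≤ Sx := by
    intro l hl1 hl2 p hp
    have h1 : Real.exp ((us u l p j : ℝ) / k - ds k s l p j) / 4 ^ (s - l) ≤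
        ∑ p ∈ range (2 ^ (s + 2 - l)),
          Real.exp ((us u l p j : ℝ) / k - ds k s l p j) / 4 ^ (s - l) :=
      Finset.single_le_sum
        (f := fun p => Real.exp ((us u l p j : ℝ) / k - ds k s l p j) / 4 ^ (s - l))
        (fun p _ => by positivity) (mem_range.mpr hp)
    refine h1.trans ?_
    exact Finset.single_le_sum
      (f := fun l => ∑ p ∈ range (2 ^ (s + 2 - l)),
          Real.exp ((us u l p j : ℝ) / k - ds k s l p j) / 4 ^ (s - l))
      (fun l _ => Finset.sum_nonneg fun p _ => by positivity) (mem_Icc.mpr ⟨hl1, hl2⟩)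
  refine ⟨?_, ?_, ?_⟩
  · -- top
    have h1 : 128 / (k : ℝ) * (A - 2 ^ 66 * j) ≤ 8 := by linarith
    rw [hmul, div_le_iff₀ hk0] at h1
    have h2 : 8 * A ≤ k := by linarith
    have h3 : (8 : ℝ) * ∑ i ∈ range j, (ut i : ℝ) ≤ k := h2
    exact_mod_cast h3
  · -- the pools
    intro l hl1 hl2 p hp
    have h1 := (hterm l hl1 hl2 p hp).trans hSx16
    rw [div_le_iff₀ (by positivity)] at h1
    have h2 : (16 : ℝ) * 4 ^ (s - l) ≤ Real.exp (2 * ((s - l + 2 : ℕ) : ℝ)) := by
      have h3 : (4 : ℝ) ≤ Real.exp 2 := by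
        have h4 := Real.add_one_le_exp (1 : ℝ)
        have h5 : Real.exp 2 = Real.exp 1 * Real.exp 1 := by
          rw [← Real.exp_add]
          norm_num
        rw [h5]
        nlinarith
      have h6 : Real.exp (2 * ((s - l + 2 : ℕ) : ℝ)) = Real.exp 2 ^ (s - l + 2) := by
        rw [← Real.exp_nat_mul]
        congr 1
        ring
      rw [h6]
      calc (16 : ℝ) * 4 ^ (s - l) = 4 ^ (s - l + 2) := by rw [pow_add]; norm_num; ring
        _ ≤ Real.exp 2 ^ (s - l + 2) := pow_le_pow_left₀ (by norm_num) h3 _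
    have h7 : (us u l p j : ℝ) / k - ds k s l p j ≤ 2 * ((s - l + 2 : ℕ) : ℝ) :=
      Real.exp_le_exp.mp (h1.trans h2)
    have h8 := ds_le k s l p j hl2 hk
    have h9 : (us u l p j : ℝ) / k ≤ 16 * ((s - l + 1 : ℕ) : ℝ) := by
      have h10 : ((s - l + 1 : ℕ) : ℝ) / 2 ^ 20 ≤ ((s - l + 1 : ℕ) : ℝ) :=
        div_le_self (by positivity) (by norm_num)
      have h11 : ((s - l + 2 : ℕ) : ℝ) = ((s - l + 1 : ℕ) : ℝ) + 1 := by
        push_cast
        ring
      have h12 : (1 : ℝ) ≤ ((s - l + 1 : ℕ) : ℝ) := by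
        exact_mod_cast (show 1 ≤ s - l + 1 by omega)
      rw [h11] at h7
      linarith
    rw [div_le_iff₀ hk0] at h9
    have h13 : (us u l p j : ℝ) ≤ ((16 * (s - l + 1) * k : ℕ) : ℝ) := by
      push_cast at h9 ⊢
      exact h9
    exact_mod_cast h13
  · intro hj1 l hl1 hl2
    have hwp0 : ∀ l p, 0 ≤ wp k s u l p j := fun l p => by
      unfold wp
      positivity
    have hwl0 : ∀ r, 0 ≤ wl k s u j r := fun r => by
      unfold wl
      refine Finset.sum_nonneg fun l' _ => ?_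
      split_ifs
      · exact hwp0 _ _
      · exact le_refl _
    have hwp1 : ∀ l' p, wp k s u l' p j ≤
        Real.exp ((us u l' p j : ℝ) / k - ds k s l' p j) / 4 ^ (s - l') := by
      intro l' p
      unfold wp
      have h1 : ds k s l' p j ≤ ds k s l' p (j + 1) := by
        unfold ds
        rw [Finset.sum_range_succ]
        have := dr_nonneg k s l' p j
        linarith
      have h2 : Real.exp ((us u l' p j : ℝ) / k - ds k s l' p (j + 1)) ≤
          Real.exp ((us u l' p j : ℝ) / k - ds k s l' p j) := Real.exp_le_exp.mpr (by linarith)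
      gcongr
    -- the labels of the pool
    have hdiv : j / 2 ^ l < 2 ^ (s - l) := by
      rw [Nat.div_lt_iff_lt_mul (by positivity), ← pow_add, show s - l + l = s by omega]
      exact hj1
    have hr : ∀ r ∈ Ico ((j / 2 ^ l + 2) * 2 ^ l) ((j / 2 ^ l + 3) * 2 ^ l),
        r / 2 ^ l = j / 2 ^ l + 2 ∧ r < 2 ^ (s + 2) := by
      intro r hr
      rw [mem_Ico] at hr
      have hpos : 0 < 2 ^ l := by positivity
      constructor
      · apply Nat.div_eq_of_lt_le
        · exact hr.1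
        · have : (j / 2 ^ l + 2 + 1) * 2 ^ l = (j / 2 ^ l + 3) * 2 ^ l := by ring
          rw [this]
          exact hr.2
      · have h1 : (j / 2 ^ l + 3) * 2 ^ l ≤ (2 ^ (s - l) + 2) * 2 ^ l :=
          Nat.mul_le_mul_right _ (by omega)
        have h2 : (2 ^ (s - l) + 2) * 2 ^ l = 2 ^ s + 2 * 2 ^ l := by
          rw [add_mul, ← pow_add, show s - l + l = s by omega]
        have h3 : 2 ^ l ≤ 2 ^ s := Nat.pow_le_pow_right (by norm_num) hl2
        have h4 : 2 ^ (s + 2) = 4 * 2 ^ s := by rw [pow_add]; ring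
        omega
    have hcard : ((Ico ((j / 2 ^ l + 2) * 2 ^ l) ((j / 2 ^ l + 3) * 2 ^ l)).card : ℝ) = 2 ^ l := by
      rw [Nat.card_Ico]
      have : (j / 2 ^ l + 3) * 2 ^ l - (j / 2 ^ l + 2) * 2 ^ l = 2 ^ l := by
        rw [← Nat.sub_mul]
        have : j / 2 ^ l + 3 - (j / 2 ^ l + 2) = 1 := by omega
        rw [this, one_mul]
      rw [this]
      push_cast
      rfl
    constructor
    · -- lower bound
      have h1 : ∀ r ∈ Ico ((j / 2 ^ l + 2) * 2 ^ l) ((j / 2 ^ l + 3) * 2 ^ l),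
          ((1 : ℝ) / 2) ^ (s - l + 1) / 4 ^ (s - l) ≤ wl k s u j r := by
        intro r hr'
        have h2 := (hr r hr').1
        have h3 : wp k s u l (r / 2 ^ l) j ≤ wl k s u j r := by
          have h4 : (if j / 2 ^ l + 2 ≤ r / 2 ^ l then wp k s u l (r / 2 ^ l) j else 0) =
              wp k s u l (r / 2 ^ l) j := if_pos (le_of_eq h2.symm)
          rw [← h4]
          unfold wl
          exact Finset.single_le_sum
            (f := fun l => if j / 2 ^ l + 2 ≤ r / 2 ^ l then wp k s u l (r / 2 ^ l) j else 0)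
            (fun l' _ => by
              show 0 ≤ (if j / 2 ^ l' + 2 ≤ r / 2 ^ l' then wp k s u l' (r / 2 ^ l') j else 0)
              split_ifs
              · exact hwp0 _ _
              · exact le_refl _) (mem_Icc.mpr ⟨hl1, hl2⟩)
        refine le_trans ?_ h3
        unfold wp
        have h5 := ds_le k s l (r / 2 ^ l) (j + 1) hl2 hk
        have h6 : (0 : ℝ) ≤ (us u l (r / 2 ^ l) j : ℝ) / k := by positivity
        have h7 : ((1 : ℝ) / 2) ^ (s - l + 1) ≤
            Real.exp (-(((s - l + 1 : ℕ) : ℝ) / 2 ^ 20)) := by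
          have h8 : (1 : ℝ) / 2 ≤ Real.exp (-(1 / 2 ^ 20)) := by
            have := Real.one_sub_le_exp_neg ((1 : ℝ) / 2 ^ 20)
            refine le_trans ?_ this
            norm_num
          have h9 : Real.exp (-(((s - l + 1 : ℕ) : ℝ) / 2 ^ 20)) =
              Real.exp (-(1 / 2 ^ 20)) ^ (s - l + 1) := by
            rw [← Real.exp_nat_mul]
            congr 1
            ring
          rw [h9]
          exact pow_le_pow_left₀ (by norm_num) h8 _
        have h10 : Real.exp (-(((s - l + 1 : ℕ) : ℝ) / 2 ^ 20)) ≤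
            Real.exp ((us u l (r / 2 ^ l) j : ℝ) / k - ds k s l (r / 2 ^ l) (j + 1)) :=
          Real.exp_le_exp.mpr (by linarith)
        have h11 := h7.trans h10
        gcongr
      have h12 := Finset.card_nsmul_le_sum _ _ _ h1
      rw [nsmul_eq_mul, hcard] at h12
      unfold cm
      have h13 : (8 : ℝ) ^ (s - l) * (2 / 2 ^ l * (2 ^ l *
          (((1 : ℝ) / 2) ^ (s - l + 1) / 4 ^ (s - l)))) = 1 := by
        have h14 : (8 : ℝ) ^ (s - l) = 2 ^ (s - l) * 4 ^ (s - l) := by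
          rw [← mul_pow]
          norm_num
        rw [h14, one_div, inv_pow, pow_succ]
        field_simp
      calc (1 : ℝ) = (8 : ℝ) ^ (s - l) * (2 / 2 ^ l * (2 ^ l *
          (((1 : ℝ) / 2) ^ (s - l + 1) / 4 ^ (s - l)))) := h13.symm
        _ ≤ _ := by gcongr
    · -- upper bound
      have h1 : ∀ r ∈ Ico ((j / 2 ^ l + 2) * 2 ^ l) ((j / 2 ^ l + 3) * 2 ^ l),
          wl k s u j r ≤ 16 := by
        intro r hr'
        have h2 := (hr r hr').2
        refine le_trans ?_ hSx16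
        unfold wl
        rw [hSx]
        refine Finset.sum_le_sum fun l' hl' => ?_
        rw [mem_Icc] at hl'
        have h3 : r / 2 ^ l' < 2 ^ (s + 2 - l') := by
          rw [Nat.div_lt_iff_lt_mul (by positivity), ← pow_add,
            show s + 2 - l' + l' = s + 2 by omega]
          exact h2
        have h4 : Real.exp ((us u l' (r / 2 ^ l') j : ℝ) / k - ds k s l' (r / 2 ^ l') j) /
            4 ^ (s - l') ≤ ∑ p ∈ range (2 ^ (s + 2 - l')),
              Real.exp ((us u l' p j : ℝ) / k - ds k s l' p j) / 4 ^ (s - l') :=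
          Finset.single_le_sum
            (f := fun p => Real.exp ((us u l' p j : ℝ) / k - ds k s l' p j) / 4 ^ (s - l'))
            (fun p _ => by positivity) (mem_range.mpr h3)
        split_ifs
        · exact (hwp1 l' (r / 2 ^ l')).trans h4
        · exact Finset.sum_nonneg fun p _ => by positivity
      have h5 := Finset.sum_le_card_nsmul _ _ _ h1
      rw [nsmul_eq_mul, hcard] at h5
      unfold cm
      calc 2 / 2 ^ l * ∑ r ∈ Ico ((j / 2 ^ l + 2) * 2 ^ l) ((j / 2 ^ l + 3) * 2 ^ l), wl k s u j r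
          ≤ 2 / 2 ^ l * (2 ^ l * 16) := by gcongr
        _ = 32 := by
            field_simp
            norm_num

end Pool.Agent.Helper48.MT3
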